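import Pool.Agent.H29.FX.TargetsQ

/-!
Row HSQ of tfx_modules: polynomials with a near-unit as linear coefficient
(model: row HSB of helper27).
-/

set_option autoImplicit false

open Finset MvPolynomial

namespace Pool.Agent.H19.TFX

open Pool.Agent.H29.FX

theorem pf_HSQ : T_HSQ := by
  intro Q j s v c hQ hv hc
  obtain ⟨κ, hκ⟩ := hc
  have hj : 1 ≤ j := by omega
  set q : ZMod ((Q ^ j) ^ s) := (Q : ZMod ((Q ^ j) ^ s)) with hq
  have hqs : q ^ (j * s) = 0 := by
    rw [pow_mul, hq, ← Nat.cast_pow, ← Nat.cast_pow]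
    exact ZMod.natCast_self _
  have hnil : IsNilpotent q := ⟨j * s, hqs⟩
  have hNl : ∀ t, Nl (Q ^ j) s t ↔ q ^ j ∣ t := by
    intro t
    rw [hq, ← Nat.cast_pow]
    exact Iff.rfl
  rcases Nat.lt_or_ge s 2 with hs | hs
  · have h0 : q ^ j = 0 := by
      rw [hq, ← Nat.cast_pow, ZMod.natCast_eq_zero_iff]
      exact (pow_dvd_pow (Q ^ j) (by omega : s ≤ 1)).trans (by rw [pow_one])
    have h1 : Ico 1 s = ∅ := by
      rw [Finset.Ico_eq_empty_iff]
      omega
    refine ⟨fun b y => ⟨0, ?_⟩, fun b t ht _ => ?_⟩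
    · rw [h1, sum_empty, pow_add, pow_add, h0, zero_mul, zero_mul, zero_mul]
    · obtain ⟨t', rfl⟩ := (hNl t).1 ht
      rw [h0, zero_mul, mul_zero]
  · have hne : NeZero ((Q ^ j) ^ s) := ⟨pow_ne_zero _ (pow_ne_zero _ (by omega))⟩
    refine ⟨fun b y => ?_, fun b t ht h => ?_⟩
    · set e : ℕ → ZMod ((Q ^ j) ^ s) :=
        fun m => q ^ ((j + b) * (m - 1) - v - 1) * κ ^ m * c m with he
      have hg : ∀ τ τ' : ZMod ((Q ^ j) ^ s), ∃ w,
          (τ + q * ∑ m ∈ Ico 2 s, τ ^ m * e m) - (τ' + q * ∑ m ∈ Ico 2 s, τ' ^ m * e m) =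
            (τ - τ') * (1 + q * w) := by
        intro τ τ'
        have h1 : ∀ m, τ ^ m - τ' ^ m =
            (τ - τ') * ∑ i ∈ range m, τ ^ i * τ' ^ (m - 1 - i) :=
          fun m => ((Commute.all τ τ').mul_geom_sum₂ m).symm
        refine ⟨∑ m ∈ Ico 2 s, (∑ i ∈ range m, τ ^ i * τ' ^ (m - 1 - i)) * e m, ?_⟩
        have h2 : (∑ m ∈ Ico 2 s, τ ^ m * e m) - ∑ m ∈ Ico 2 s, τ' ^ m * e m =
            (τ - τ') * ∑ m ∈ Ico 2 s, (∑ i ∈ range m, τ ^ i * τ' ^ (m - 1 - i)) * e m := by
          rw [← Finset.sum_sub_distrib, Finset.mul_sum]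
          refine Finset.sum_congr rfl fun m _ => ?_
          rw [← sub_mul, h1 m, mul_assoc]
        linear_combination q * h2
      have hinj : Function.Injective
          (fun τ : ZMod ((Q ^ j) ^ s) => τ + q * ∑ m ∈ Ico 2 s, τ ^ m * e m) := by
        intro τ τ' h
        obtain ⟨w, hw⟩ := hg τ τ'
        have h' : (τ + q * ∑ m ∈ Ico 2 s, τ ^ m * e m) -
            (τ' + q * ∑ m ∈ Ico 2 s, τ' ^ m * e m) = 0 := sub_eq_zero.2 h
        rw [h'] at hw
        have hu : IsUnit (1 + q * w) :=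
          IsNilpotent.isUnit_one_add ((Commute.all _ _).isNilpotent_mul_right hnil)
        exact sub_eq_zero.1 ((hu.mul_left_eq_zero).1 hw.symm)
      have hsurj := Finite.injective_iff_surjective.mp hinj
      obtain ⟨τ, hτ⟩ := hsurj y
      refine ⟨κ * τ, ?_⟩
      have hm : ∀ m ∈ Ico 2 s, (q ^ (j + b) * (κ * τ)) ^ m * c m =
          q ^ (j + b + v) * (q * (τ ^ m * e m)) := by
        intro m hm
        have hm2 := (mem_Ico.1 hm).1
        obtain ⟨k, rfl⟩ := Nat.exists_eq_add_of_le hm2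
        have hk : j ≤ (j + b) * (k + 1) := by nlinarith
        have h3 : (j + b) * (2 + k) = (j + b + v) + 1 + ((j + b) * (2 + k - 1) - v - 1) := by
          have h4 : 2 + k - 1 = k + 1 := by omega
          rw [h4]
          have h5 : (j + b) * (2 + k) = (j + b) + (j + b) * (k + 1) := by ring
          omega
        have h6 : (q ^ (j + b)) ^ (2 + k) =
            q ^ (j + b + v) * (q * q ^ ((j + b) * (2 + k - 1) - v - 1)) := by
          calc (q ^ (j + b)) ^ (2 + k) = q ^ ((j + b) * (2 + k)) := (pow_mul q _ _).symm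
            _ = q ^ ((j + b + v) + 1 + ((j + b) * (2 + k - 1) - v - 1)) :=
              congrArg (fun n => q ^ n) h3
            _ = _ := by rw [pow_add, pow_succ, mul_assoc]
        simp only [he]
        rw [mul_pow, mul_pow, h6]
        ring
      rw [Finset.sum_eq_sum_Ico_succ_bot (by omega : 1 < s)]
      have e2 : (1 : ℕ) + 1 = 2 := rfl
      rw [e2, Finset.sum_congr rfl hm, ← Finset.mul_sum, ← Finset.mul_sum, ← hτ]
      linear_combination (q ^ (j + b) * τ) * hκ
    · obtain ⟨t', rfl⟩ := (hNl t).1 ht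
      have h1 : ∀ m ∈ Ico 2 s, (q ^ j * t') ^ m * c m =
          (q ^ j * t') * (q ^ j * (t' * (q ^ j * t') ^ (m - 2) * c m)) := by
        intro m hm
        have hm2 := (mem_Ico.1 hm).1
        obtain ⟨k, rfl⟩ := Nat.exists_eq_add_of_le hm2
        rw [show 2 + k - 2 = k by omega]
        ring
      have e2 : (1 : ℕ) + 1 = 2 := rfl
      rw [Finset.sum_eq_sum_Ico_succ_bot (by omega : 1 < s), e2, Finset.sum_congr rfl h1,
        ← Finset.mul_sum, ← Finset.mul_sum] at h
      set W : ZMod ((Q ^ j) ^ s) :=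
        ∑ m ∈ Ico 2 s, t' * (q ^ j * t') ^ (m - 2) * c m with hW
      have hjv : q ^ j = q ^ v * q ^ (j - v) := by
        rw [← pow_add]
        congr 1
        omega
      have hu : IsUnit (1 + q ^ (j - v) * (W * κ)) := by
        obtain ⟨k, hk⟩ : ∃ k, j - v = k + 1 := ⟨j - v - 1, by omega⟩
        rw [hk, pow_succ']
        refine IsNilpotent.isUnit_one_add ?_
        rw [mul_assoc]
        exact (Commute.all _ _).isNilpotent_mul_right hnil
      have h2 : (q ^ (b + v) * (q ^ j * t')) * (1 + q ^ (j - v) * (W * κ)) = 0 := by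
        linear_combination κ * h - (q ^ b * q ^ j * t') * hκ -
          (q ^ b * q ^ j * t' * W * κ) * hjv
      exact (hu.mul_left_eq_zero).1 h2

end Pool.Agent.H19.TFX
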